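import Pool.Agent.MP_42a792_nt.Final

/-!
# Cyclotomic integers of Cassels height `9/4`

Up to equivalence there are exactly two cyclotomic integers of Cassels height `9/4`, namely
`1 + ω₁₅` and `1 + ω₇ + ω₇ω₅`.
-/

open Pool.Agent.MP_42a792_nt

/-- A cyclotomic integer has Cassels height `9/4` if and only if it is equivalent to `1 + ω₁₅` or
to `1 + ω₇ + ω₇ω₅`; these two numbers are cyclotomic integers and are not equivalent. -/
theorem Pool.Agent.Results.MP_42a792_nt.HeightNineFourths.result :
    (∀ β : ℂ, IsCyclotomicInteger β →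
      (casselsHeight β = 9 / 4 ↔
        Equivalent β (1 + omega 15) ∨ Equivalent β (1 + omega 7 + omega 7 * omega 5))) ∧
    (IsCyclotomicInteger (1 + omega 15) ∧ casselsHeight (1 + omega 15) = 9 / 4) ∧
    (IsCyclotomicInteger (1 + omega 7 + omega 7 * omega 5) ∧
      casselsHeight (1 + omega 7 + omega 7 * omega 5) = 9 / 4) ∧
    ¬ Equivalent (1 + omega 15) (1 + omega 7 + omega 7 * omega 5) := by
  have h15 : IsPrimitiveRoot (omega 15) 15 := omega_prim (by norm_num)
  have h7 : IsPrimitiveRoot (omega 7) 7 := omega_prim (by norm_num)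
  have h5 : IsPrimitiveRoot (omega 5) 5 := omega_prim (by norm_num)
  have h35 : IsPrimitiveRoot (omega 7 * omega 5) 35 := mul_prim h7 h5 (by norm_num)
  have e15 : 1 + omega 15 = Polynomial.aeval (omega 15) (1 + Polynomial.X : Polynomial ℤ) := by
    simp
  have e35 := aeval_poly35 h7 h5
  refine ⟨fun β hβ => ⟨fun h => ?_, fun h => ?_⟩, ⟨?_, height_fifteen h15⟩,
    ⟨?_, height_thirtyfive h7 h5⟩, not_equivalent⟩
  · obtain ⟨N, hN, hmem⟩ := cyclotomicInteger_mem hβ
    exact equivalent_of_good (classification N hN β hmem h)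
  · rcases h with h | h
    · rw [e15] at h
      rw [height_of_equiv (by norm_num) h15 h, ← e15]
      exact height_fifteen h15
    · rw [← e35] at h
      rw [height_of_equiv (by norm_num) h35 h, e35]
      exact height_thirtyfive h7 h5
  · rw [e15]
    exact isCyclotomicInteger_of_mem (by norm_num) (aeval_mem h15.pow_eq_one _)
  · rw [← e35]
    exact isCyclotomicInteger_of_mem (by norm_num) (aeval_mem h35.pow_eq_one _)
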